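import Pool.Agent.Q112.ML.Stm

/-!
Project ML (helper112): counting the indices of the classes.
-/

set_option autoImplicit false

namespace Pool.Agent.Q98.ML

open Finset Filter MeasureTheory ProbabilityTheory Pool.Agent.Q120.GM Pool.Agent.Q112.LE
  Pool.Agent.Q112.ML
open scoped Topology

theorem mem_idx {Q k : ℕ} {i : ℕ × ℕ} : i ∈ idx Q k ↔ (i.1 ∈ pk k ∧ i.2 < 2 ^ k) ∧ Q < i.1 ∧
    i.1 / 2 ≤ i.2 ∧ i.2 < i.1 ∧ ¬ i.1 ∣ 1 + Q * i.2 := by
  unfold idx
  rw [mem_filter, mem_product, mem_range]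

theorem mem_win {Q X n : ℕ} {i : ℕ × ℕ} : n ∈ win Q X i ↔ (1 ≤ n ∧ n ≤ X) ∧
    n ≡ 1 + Q * i.2 [MOD Q * i.1] := by
  unfold win Pool.Agent.Q112.ML.cls
  rw [mem_filter, mem_Icc]

theorem dvd_unique {Q l : ℕ} (hl : l.Prime) (hQ : 1 ≤ Q) (hQl : Q < l) {a b : ℕ} (ha : a < l)
    (hb : b < l) (h : 1 + Q * a ≡ 1 + Q * b [MOD l]) : a = b := by
  have h1 : Q * a ≡ Q * b [MOD l] := Nat.ModEq.add_left_cancel' 1 h
  have h2 : Nat.Coprime l Q := by
    rw [hl.coprime_iff_not_dvd]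
    intro hd
    have := Nat.le_of_dvd (by omega) hd
    omega
  have h3 : a ≡ b [MOD l] := Nat.ModEq.cancel_left_of_coprime h2 h1
  have h4 : a % l = b % l := h3
  rwa [Nat.mod_eq_of_lt ha, Nat.mod_eq_of_lt hb] at h4

/-- the element of a window -/
theorem win_form {Q X n : ℕ} {i : ℕ × ℕ} (hQ : 1 ≤ Q) (hi : i.2 < i.1) (hn : n ∈ win Q X i) :
    ∃ m, n = 1 + Q * m ∧ m ≤ (X - 1) / Q ∧ i.2 = m % i.1 := by
  rw [mem_win] at hn
  obtain ⟨⟨h1, h2⟩, h3⟩ := hn
  have h4 : n ≡ 1 + Q * i.2 [MOD Q] := Nat.ModEq.of_mul_right i.1 h3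
  have h5 : n ≡ 1 [MOD Q] := h4.trans (by
    have : Q * i.2 ≡ 0 [MOD Q] := Nat.modEq_zero_iff_dvd.2 (dvd_mul_right _ _)
    simp)
  have h6 : Q ∣ n - 1 := (Nat.modEq_iff_dvd' h1).1 h5.symm
  obtain ⟨m, hm⟩ := h6
  have h7 : n = 1 + Q * m := by omega
  refine ⟨m, h7, ?_, ?_⟩
  · rw [Nat.le_div_iff_mul_le (by omega), mul_comm]
    omega
  · rw [h7] at h3
    have h8 : Q * m ≡ Q * i.2 [MOD Q * i.1] := Nat.ModEq.add_left_cancel' 1 h3
    have h9 : m ≡ i.2 [MOD i.1] := Nat.ModEq.mul_left_cancel' (by omega) h8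
    have h10 : m % i.1 = i.2 % i.1 := h9
    rw [h10, Nat.mod_eq_of_lt hi]

theorem card_congr_le {S : Finset ℕ} {X D : ℕ} (_hD : 1 ≤ D) (h1 : ∀ n ∈ S, 1 ≤ n ∧ n ≤ X)
    (h2 : ∀ n ∈ S, ∀ n' ∈ S, n ≡ n' [MOD D]) : (S.card : ℝ) ≤ (X : ℝ) / D + 1 := by
  have h3 : S.card ≤ (range (X / D + 1)).card := by
    refine card_le_card_of_injOn (fun n => (n - 1) / D) (fun n hn => ?_) ?_
    · have := h1 n hn
      rw [mem_coe, mem_range]
      have h4 : (n - 1) / D ≤ X / D := Nat.div_le_div_right (by omega)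
      exact Nat.lt_succ_of_le h4
    · intro a ha b hb hab
      have ha1 := h1 a ha
      have hb1 := h1 b hb
      have hab' : (a - 1) / D = (b - 1) / D := hab
      have h4 : a - 1 ≡ b - 1 [MOD D] := by
        have := h2 a ha b hb
        have e1 : a = (a - 1) + 1 := by omega
        have e2 : b = (b - 1) + 1 := by omega
        rw [e1, e2] at this
        exact Nat.ModEq.add_right_cancel' 1 this
      have h5 : (a - 1) % D = (b - 1) % D := h4
      have h6 := Nat.div_add_mod (a - 1) D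
      have h7 := Nat.div_add_mod (b - 1) D
      rw [hab', h5, h7] at h6
      omega
  rw [card_range] at h3
  have h4 : ((X / D : ℕ) : ℝ) ≤ (X : ℝ) / D := Nat.cast_div_le
  calc (S.card : ℝ) ≤ ((X / D + 1 : ℕ) : ℝ) := by exact_mod_cast h3
    _ = ((X / D : ℕ) : ℝ) + 1 := by push_cast; ring
    _ ≤ _ := by linarith

/-- the number of the second indices for one prime -/
theorem card_fib {Q k l : ℕ} (hQ : 1 ≤ Q) (hl : l.Prime) (hQl : Q < l) (h4 : 4 ≤ l) (hlk : l ≤ 2 ^ k) :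
    (l : ℝ) / 4 ≤ (((range (2 ^ k)).filter
      (fun b => l / 2 ≤ b ∧ b < l ∧ ¬ l ∣ 1 + Q * b)).card : ℝ) := by
  have h1 : ((Ico (l / 2) l).filter (fun b => l ∣ 1 + Q * b)).card ≤ 1 := by
    rw [card_le_one]
    intro a ha b hb
    rw [mem_filter, mem_Ico] at ha hb
    refine dvd_unique hl hQ hQl ha.1.2 hb.1.2 ?_
    exact (Nat.modEq_zero_iff_dvd.2 ha.2).trans (Nat.modEq_zero_iff_dvd.2 hb.2).symm
  have h2 := card_filter_add_card_filter_not (s := Ico (l / 2) l) (fun b => l ∣ 1 + Q * b)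
  rw [Nat.card_Ico] at h2
  have h3 : (Ico (l / 2) l).filter (fun b => ¬ l ∣ 1 + Q * b) ⊆
      (range (2 ^ k)).filter (fun b => l / 2 ≤ b ∧ b < l ∧ ¬ l ∣ 1 + Q * b) := by
    intro b hb
    rw [mem_filter, mem_Ico] at hb
    rw [mem_filter, mem_range]
    exact ⟨by omega, hb.1.1, hb.1.2, hb.2⟩
  have h5 := card_le_card h3
  have h6 : l ≤ 4 * ((range (2 ^ k)).filter (fun b => l / 2 ≤ b ∧ b < l ∧ ¬ l ∣ 1 + Q * b)).card := by
    omega
  have h7 : (l : ℝ) ≤ 4 * (((range (2 ^ k)).filter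
      (fun b => l / 2 ≤ b ∧ b < l ∧ ¬ l ∣ 1 + Q * b)).card : ℝ) := by exact_mod_cast h6
  linarith

theorem t_ID : S_ID := by
  intro Q hQ
  have hbig : ∀ᶠ k : ℕ in atTop, ∀ l ∈ pk k, max (Q + 1) 4 ≤ l :=
    ev_pk (eventually_ge_atTop _)
  filter_upwards [hbig, card_pk, eventually_ge_atTop 1] with k hk hpk hk1
  have hkR : (1 : ℝ) ≤ k := by exact_mod_cast hk1
  have hbase : ∀ i ∈ idx Q k, i.1.Prime ∧ i.1 ≤ 2 ^ k ∧ 2 ^ k < 8 * i.1 ∧ Q < i.1 ∧
      i.1 / 2 ≤ i.2 ∧ i.2 < i.1 ∧ ¬ i.1 ∣ 1 + Q * i.2 := by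
    intro i hi
    rw [mem_idx, mem_pk] at hi
    exact ⟨hi.1.1.2.1, hi.1.1.1, hi.1.1.2.2, hi.2⟩
  -- the number of the indices
  have hcard : ((pk k).card : ℝ) * (2 ^ k / 32) ≤ ((idx Q k).card : ℝ) := by
    have h1 : (idx Q k).card = ∑ l ∈ pk k, ((range (2 ^ k)).filter
        (fun b => Q < l ∧ l / 2 ≤ b ∧ b < l ∧ ¬ l ∣ 1 + Q * b)).card := by
      unfold idx
      rw [card_filter, sum_product]
      refine sum_congr rfl fun l _ => ?_
      rw [card_filter]
    rw [h1, Nat.cast_sum]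
    have h2 : ((pk k).card : ℝ) * (2 ^ k / 32) = ∑ _l ∈ pk k, ((2 : ℝ) ^ k / 32) := by
      rw [sum_const, nsmul_eq_mul]
    rw [h2]
    refine sum_le_sum fun l hl => ?_
    have hl1 := hk l hl
    have hQl : Q < l := by
      have := (le_max_left (Q + 1) 4).trans hl1
      omega
    have hl2 := mem_pk.1 hl
    have h3 := card_fib hQ hl2.2.1 hQl ((le_max_right _ _).trans hl1) hl2.1
    have h4 : (2 : ℝ) ^ k < 8 * l := by exact_mod_cast hl2.2.2
    have h5 : (range (2 ^ k)).filter (fun b => Q < l ∧ l / 2 ≤ b ∧ b < l ∧ ¬ l ∣ 1 + Q * b) =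
        (range (2 ^ k)).filter (fun b => l / 2 ≤ b ∧ b < l ∧ ¬ l ∣ 1 + Q * b) := by
      refine filter_congr fun b _ => ?_
      constructor
      · exact fun h => h.2
      · exact fun h => ⟨hQl, h⟩
    rw [h5]
    linarith
  have hsq : ((pk k).card : ℝ) ^ 2 * (4 ^ k / 1024) ≤ ((idx Q k).card : ℝ) ^ 2 := by
    have h1 := pow_le_pow_left₀ (by positivity) hcard 2
    have h2 : (4 : ℝ) ^ k = (2 ^ k) ^ 2 := by
      rw [← pow_mul, mul_comm, pow_mul]; norm_num
    calc ((pk k).card : ℝ) ^ 2 * (4 ^ k / 1024) = (((pk k).card : ℝ) * (2 ^ k / 32)) ^ 2 := by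
          rw [h2]; ring
      _ ≤ _ := h1
  -- equal primes
  have hsame : ∀ X : ℕ, ∀ i ∈ idx Q k, ∀ j ∈ idx Q k, i ≠ j → i.1 = j.1 →
      Disjoint (win Q X i) (win Q X j) := by
    intro X i hi j hj hij h1
    rw [disjoint_left]
    intro n hn hn'
    obtain ⟨_, _, _, _, _, hi2, _⟩ := hbase i hi
    obtain ⟨_, _, _, _, _, hj2, _⟩ := hbase j hj
    obtain ⟨m, hm, _, hm2⟩ := win_form hQ hi2 hn
    obtain ⟨m', hm', _, hm2'⟩ := win_form hQ hj2 hn'
    have h2 : Q * m = Q * m' := by omega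
    have h3 : m = m' := Nat.eq_of_mul_eq_mul_left (by omega) h2
    apply hij
    refine Prod.ext h1 ?_
    rw [hm2, hm2', h3, h1]
  refine ⟨fun i hi => ?_, ?_, fun X hX => ⟨?_, ?_⟩⟩
  · obtain ⟨hp, h1, h2, h3, h4, h5, h6⟩ := hbase i hi
    have hQb : Q * (i.2 + 1) ≤ Q * i.1 := Nat.mul_le_mul_left _ h5
    have hne : 1 + Q * i.2 ≠ Q * i.1 := by
      intro h
      apply h6
      rw [h]
      exact dvd_mul_left _ _
    refine ⟨?_, ?_, ?_, ?_, ?_⟩
    · have : Q * (i.2 + 1) = Q * i.2 + Q := by ring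
      omega
    · refine Nat.Coprime.mul_right ?_ ?_
      · have : Nat.gcd (1 + Q * i.2) Q = 1 := by simp
        exact this
      · rw [Nat.coprime_comm, hp.coprime_iff_not_dvd]
        exact h6
    · have h7 : i.1 ≤ 2 * i.2 + 1 := by omega
      have h8 : Q * i.1 ≤ Q * (2 * i.2 + 1) := Nat.mul_le_mul_left _ h7
      have h9 : Q * (2 * i.2 + 1) = 2 * (Q * i.2) + Q := by ring
      have h10 : 1 ≤ i.2 := by
        have := hp.two_le
        omega
      have h11 : Q * 1 ≤ Q * i.2 := Nat.mul_le_mul_left _ h10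
      omega
    · have : (2 : ℝ) ^ k < 8 * i.1 := by exact_mod_cast h2
      linarith
    · exact_mod_cast h1
  · have h1 : Real.log ((2 : ℝ) ^ k) ≤ k := by
      rw [Real.log_pow]
      have := Real.log_two_lt_d9
      nlinarith
    have h2 : (2 : ℝ) ^ k / 2 ≤ (pk k).card * k :=
      hpk.trans (mul_le_mul_of_nonneg_left h1 (Nat.cast_nonneg _))
    have h3 : (4 : ℝ) ^ k = 2 ^ k * 2 ^ k := by
      rw [← mul_pow]; norm_num
    refine le_trans ?_ hcard
    rw [div_le_iff₀ (by positivity), h3]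
    have h4 := mul_le_mul_of_nonneg_right h2 (by positivity : (0 : ℝ) ≤ 2 ^ k)
    nlinarith
  · refine ⟨(idx Q k ×ˢ idx Q k).filter (fun ij => ij.1 ≠ ij.2 ∧
      ¬ Disjoint (win Q X ij.1) (win Q X ij.2)), ?_, ?_, ?_⟩
    · intro i hi j hj hij hD
      by_contra hcon
      exact hD (mem_filter.2 ⟨mem_product.2 ⟨hi, hj⟩, hij, hcon⟩)
    · have h1 := card_filter_le (idx Q k ×ˢ idx Q k) (fun ij => ij.1 ≠ ij.2 ∧
        ¬ Disjoint (win Q X ij.1) (win Q X ij.2))
      rw [card_product] at h1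
      rw [sq]
      exact_mod_cast h1
    · have h1 : ((idx Q k ×ˢ idx Q k).filter (fun ij => ij.1 ≠ ij.2 ∧
          ¬ Disjoint (win Q X ij.1) (win Q X ij.2))).card ≤
          ((pk k ×ˢ pk k) ×ˢ range (X / Q + 1)).card := by
        have h2 : (idx Q k ×ˢ idx Q k).filter (fun ij => ij.1 ≠ ij.2 ∧
            ¬ Disjoint (win Q X ij.1) (win Q X ij.2)) ⊆
            ((pk k ×ˢ pk k) ×ˢ range (X / Q + 1)).image
              (fun y => ((y.1.1, y.2 % y.1.1), (y.1.2, y.2 % y.1.2))) := by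
          rintro ⟨i, j⟩ hij
          rw [mem_filter, mem_product] at hij
          obtain ⟨⟨hi, hj⟩, _, hD⟩ := hij
          rw [not_disjoint_iff] at hD
          obtain ⟨n, hn, hn'⟩ := hD
          obtain ⟨_, _, _, _, _, hi2, _⟩ := hbase i hi
          obtain ⟨_, _, _, _, _, hj2, _⟩ := hbase j hj
          obtain ⟨m, hm, hm1, hm2⟩ := win_form hQ hi2 hn
          obtain ⟨m', hm', _, hm2'⟩ := win_form hQ hj2 hn'
          have h2 : Q * m = Q * m' := by omega
          have h3 : m = m' := Nat.eq_of_mul_eq_mul_left (by omega) h2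
          rw [mem_image]
          refine ⟨((i.1, j.1), m), ?_, ?_⟩
          · rw [mem_product, mem_product, mem_range]
            refine ⟨⟨(mem_idx.1 hi).1.1, (mem_idx.1 hj).1.1⟩, ?_⟩
            have h4 : (X - 1) / Q ≤ X / Q := Nat.div_le_div_right (by omega)
            change m < X / Q + 1
            omega
          · simp only
            rw [← hm2, h3, ← hm2']
        exact (card_le_card h2).trans card_image_le
      rw [card_product, card_product, card_range] at h1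
      have h2 : (((idx Q k ×ˢ idx Q k).filter (fun ij => ij.1 ≠ ij.2 ∧
          ¬ Disjoint (win Q X ij.1) (win Q X ij.2))).card : ℝ) ≤
          ((pk k).card : ℝ) ^ 2 * ((X : ℝ) / Q + 1) := by
        calc (((idx Q k ×ˢ idx Q k).filter (fun ij => ij.1 ≠ ij.2 ∧
          ¬ Disjoint (win Q X ij.1) (win Q X ij.2))).card : ℝ) ≤
            (((pk k).card * (pk k).card * (X / Q + 1) : ℕ) : ℝ) := by exact_mod_cast h1
          _ = ((pk k).card : ℝ) ^ 2 * (((X / Q : ℕ) : ℝ) + 1) := by push_cast; ring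
          _ ≤ _ := by
            have : ((X / Q : ℕ) : ℝ) ≤ (X : ℝ) / Q := Nat.cast_div_le
            gcongr
      refine h2.trans ?_
      have h3 : (0 : ℝ) < 4 ^ k := by positivity
      have h4 : 0 ≤ (X : ℝ) / Q + 1 := by positivity
      rw [div_mul_eq_mul_div, le_div_iff₀ h3]
      have h5 := mul_le_mul_of_nonneg_left hsq h4
      nlinarith [mul_nonneg h4 (sq_nonneg ((idx Q k).card : ℝ))]
  · intro i hi j hj hij
    by_cases h1 : i.1 = j.1
    · have h2 := hsame X i hi j hj hij h1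
      rw [disjoint_iff_inter_eq_empty] at h2
      rw [h2, card_empty, Nat.cast_zero]
      positivity
    · obtain ⟨hp, _, _, _, _, hi2, _⟩ := hbase i hi
      obtain ⟨hp', _, _, _, _, hj2, _⟩ := hbase j hj
      have h2 := card_congr_le (S := win Q X i ∩ win Q X j) (X := X) (D := Q * i.1 * j.1)
        (by
          have := Nat.mul_pos (Nat.mul_pos hQ hp.pos) hp'.pos
          omega)
        (fun n hn => (mem_win.1 (mem_inter.1 hn).1).1) (fun n hn n' hn' => by
          rw [mem_inter] at hn hn'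
          obtain ⟨m, hm, _, hm2⟩ := win_form hQ hi2 hn.1
          obtain ⟨m', hm', _, hm2'⟩ := win_form hQ hi2 hn'.1
          obtain ⟨s, hs, _, hs2⟩ := win_form hQ hj2 hn.2
          obtain ⟨s', hs', _, hs2'⟩ := win_form hQ hj2 hn'.2
          have e1 : m = s := Nat.eq_of_mul_eq_mul_left (by omega : 0 < Q) (by omega)
          have e2 : m' = s' := Nat.eq_of_mul_eq_mul_left (by omega : 0 < Q) (by omega)
          have e3 : m ≡ m' [MOD i.1] := by
            change m % i.1 = m' % i.1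
            rw [← hm2, ← hm2']
          have e4 : m ≡ m' [MOD j.1] := by
            change m % j.1 = m' % j.1
            rw [e1, e2, ← hs2, ← hs2']
          have e5 : Nat.Coprime i.1 j.1 := (Nat.coprime_primes hp hp').2 h1
          have e6 : m ≡ m' [MOD i.1 * j.1] := (Nat.modEq_and_modEq_iff_modEq_mul e5).1 ⟨e3, e4⟩
          rw [hm, hm', mul_assoc]
          exact (e6.mul_left' Q).add_left 1)
      refine h2.trans (le_of_eq ?_)
      push_cast
      ring

end Pool.Agent.Q98.ML
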