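import Pool.Agent.Q98.ML.TLa

/-!
Project ML (helper112): lower bound for the tails in a window.
-/

set_option autoImplicit false

namespace Pool.Agent.Q98.ML

open Finset Filter MeasureTheory ProbabilityTheory Pool.Agent.Q120.GM Pool.Agent.Q112.LE
  Pool.Agent.Q112.ML
open scoped Topology

theorem log_ev {a : ℝ} (ha : 0 < a) : ∀ᶠ L : ℝ in atTop, 1 + Real.log (1 + L) ≤ a * L := by
  have h1 := Real.isLittleO_log_id_atTop.bound (show (0 : ℝ) < a / 4 by positivity)
  have h2 : Tendsto (fun L : ℝ => 1 + L) atTop atTop := tendsto_atTop_add_const_left _ _ tendsto_id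
  filter_upwards [h2.eventually h1, eventually_ge_atTop (1 : ℝ), eventually_ge_atTop (2 / a)]
    with L hL hL1 hL2
  rw [id, Real.norm_of_nonneg (Real.log_nonneg (by linarith)), Real.norm_of_nonneg (by linarith)] at hL
  rw [div_le_iff₀ ha] at hL2
  nlinarith

theorem t_TL : S_TI → S_RT → S_TL := by
  intro hTI hRT Q hQ ε η hε hε2 hη hη1
  have hK : 0 < qq Q := qq_pos hQ
  refine ⟨ε * η / 32, by positivity, fun c1 hc1 => ?_⟩
  -- the threshold
  have hev : ∀ᶠ L : ℝ in atTop, 1 ≤ L ∧ qq Q ≤ ε * L ∧ qq Q / (ε * L) * L ^ (1 - ε) ≤ η / 32 ∧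
      2 * c1 * (1 + Real.log (1 + L)) ≤ η / 8 * L ∧ c1 ≤ ε * L ∧ L ≤ (1 + η / 8) * (L - c1) := by
    have h1 : Tendsto (fun L : ℝ => qq Q / ε * L ^ (-ε)) atTop (𝓝 (qq Q / ε * 0)) :=
      (tendsto_rpow_neg_atTop hε).const_mul _
    rw [mul_zero] at h1
    have h2 := h1.eventually_le_const (show (0 : ℝ) < η / 32 by positivity)
    have h3 := log_ev (a := η / (16 * c1)) (by positivity)
    filter_upwards [eventually_ge_atTop (1 : ℝ), eventually_ge_atTop (qq Q / ε), h2, h3,
      eventually_ge_atTop (c1 / ε), eventually_ge_atTop (c1 * (1 + η / 8) / (η / 8))]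
      with L a1 a2 a3 a4 a5 a6
    have hL : 0 < L := by linarith
    rw [div_le_iff₀ hε] at a2 a5
    rw [div_le_iff₀ (by positivity)] at a6
    refine ⟨a1, by linarith, ?_, ?_, by linarith, by linarith⟩
    · refine le_trans (le_of_eq ?_) a3
      rw [show (1 : ℝ) - ε = -ε + 1 by ring, Real.rpow_add hL, Real.rpow_one]
      field_simp
    · have := mul_le_mul_of_nonneg_left a4 (by positivity : 0 ≤ 2 * c1)
      refine this.trans (le_of_eq ?_)
      field_simp
      ring
  obtain ⟨L1, hL1⟩ := eventually_atTop.1 hev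
  refine ⟨max (max L1 1) (32 / η ^ 2), by positivity, ?_⟩
  intro Ω _ μ _ A hA W L r hL hW hfar hr1 hr2 hr0 hM0
  obtain ⟨b1, b2, b3, b4, b5, b6⟩ := hL1 L ((le_max_left _ _).trans ((le_max_left _ _).trans hL))
  have hP : Prm (qq Q) ε η c1 L r := ⟨hK, hε, hε2, hη, hη1, hc1, b1, b2, b3, b4, b5, b6, hr1, hr2, hr0⟩
  have hLp : 0 < L := hP.Lpos
  have hL0 : 32 / η ^ 2 ≤ max (max L1 1) (32 / η ^ 2) := le_max_right _ _
  have habs : 0 < |r| := abs_pos.2 hr0
  set M : ℝ := qq Q * W.card with hM
  have hMp : 0 < M := by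
    have h1 : 0 < qq Q * W.card * min |r| (r ^ 2) :=
      lt_of_lt_of_le (by positivity) hM0
    have h2 : 0 < min |r| (r ^ 2) := lt_min habs (by positivity)
    exact pos_of_mul_pos_left h1 h2.le
  have hM1 : 32 / η ^ 2 * L ≤ M * min |r| (r ^ 2) :=
    (mul_le_mul_of_nonneg_right hL0 hLp.le).trans hM0
  set l : ℝ := Real.log (1 + r) / L with hl
  set t : ℝ := η * |r| * M / 2 with ht
  have htp : 0 < t := by positivity
  -- the elements
  set ee : ℕ → ℝ := fun n => Real.exp (l * Real.log n) with hee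
  set pp : ℕ → ℝ := fun n => level Q n with hpp
  have hw : ∀ n ∈ W, ε * L ≤ Real.log n ∧ Real.log n ≤ L := fun n hn => (hW n hn).2
  have hpe : ∀ n ∈ W, level Q n = qq Q / Real.log n := by
    intro n hn
    unfold level
    rw [if_pos (hW n hn).1]
    have h1 : 0 < Real.log n := lt_of_lt_of_le (by positivity) (hw n hn).1
    have h2 : qq Q / Real.log n ≤ 1 := (div_le_one h1).2 (b2.trans (hw n hn).1)
    exact min_eq_right h2
  set zz : ℕ → ℝ := fun n => level Q n * (Real.exp (l * Real.log n) - 1) with hzz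
  have hfacts := fun n (hn : n ∈ W) => hP.facts (hw n hn).1 (hw n hn).2
    (e := Real.exp (l * Real.log n)) rfl (hpe n hn) (z := zz n) rfl
  have hz1 : ∀ n ∈ W, 0 < 1 + zz n := fun n hn => by
    have := (hfacts n hn).2.2.2.2.2.2.2.2.2.2
    linarith
  set M' : ℝ := ∑ n ∈ W, Real.log n * (level Q n * Real.exp (l * Real.log n) /
    (1 + level Q n * (Real.exp (l * Real.log n) - 1))) with hM'
  -- (a) the variance
  have hvar : ∑ n ∈ W, Real.log n ^ 2 * (level Q n * Real.exp (l * Real.log n) /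
      (1 + level Q n * (Real.exp (l * Real.log n) - 1))) ≤ t ^ 2 / 2 := by
    have h1 : ∑ n ∈ W, Real.log n ^ 2 * (level Q n * Real.exp (l * Real.log n) /
        (1 + level Q n * (Real.exp (l * Real.log n) - 1))) ≤
        ∑ _n ∈ W, 2 * qq Q * L * max 1 (1 + r) :=
      sum_le_sum fun n hn => hP.var (hw n hn).1 (hw n hn).2 rfl (hpe n hn) rfl
    rw [sum_const, nsmul_eq_mul] at h1
    refine h1.trans ?_
    have h2 : (W.card : ℝ) * (2 * qq Q * L * max 1 (1 + r)) = 2 * L * max 1 (1 + r) * M := by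
      rw [hM]; ring
    rw [h2, ht]
    have h3 : (η * |r| * M / 2) ^ 2 / 2 = η ^ 2 * r ^ 2 * M / 8 * M := by
      rw [div_pow, mul_pow, mul_pow, sq_abs]; ring
    rw [h3]
    refine mul_le_mul_of_nonneg_right ?_ hMp.le
    rw [div_mul_eq_mul_div, div_le_iff₀ (by positivity)] at hM1
    rcases le_or_gt r 1 with hr | hr
    · have h4 : max 1 (1 + r) ≤ 2 := max_le (by norm_num) (by linarith)
      have h5 : M * min |r| (r ^ 2) ≤ M * r ^ 2 := mul_le_mul_of_nonneg_left (min_le_right _ _) hMp.le
      have h6 : M * min |r| (r ^ 2) * η ^ 2 ≤ M * r ^ 2 * η ^ 2 :=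
        mul_le_mul_of_nonneg_right h5 (by positivity)
      nlinarith
    · have h4 : max 1 (1 + r) ≤ 2 * r := max_le (by linarith) (by linarith)
      have h5 : M * min |r| (r ^ 2) ≤ M * r := by
        refine mul_le_mul_of_nonneg_left ?_ hMp.le
        rw [abs_of_pos (by linarith : 0 < r)]
        exact min_le_left _ _
      have h6 : M * min |r| (r ^ 2) * η ^ 2 ≤ M * r * η ^ 2 :=
        mul_le_mul_of_nonneg_right h5 (by positivity)
      have h7 : 32 * L * r ≤ M * r * η ^ 2 * r :=
        mul_le_mul_of_nonneg_right (hM1.trans h6) (by linarith)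
      have h8 : 2 * L * max 1 (1 + r) ≤ 2 * L * (2 * r) :=
        mul_le_mul_of_nonneg_left h4 (by positivity)
      nlinarith
  -- (b) the mean
  set Wf : Finset ℕ := W.filter (fun n : ℕ => Real.log n < L - c1) with hWf
  have hmean : |M' - (1 + r) * M| ≤ t := by
    have h1 : M' - (1 + r) * M = qq Q * ∑ n ∈ W, (Real.exp (l * Real.log n) / (1 + zz n) - (1 + r)) := by
      rw [mul_sum, hM', hM]
      have h2 : (1 + r) * (qq Q * (W.card : ℝ)) = ∑ _n ∈ W, qq Q * (1 + r) := by
        rw [sum_const, nsmul_eq_mul]; ring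
      rw [h2, ← sum_sub_distrib]
      refine sum_congr rfl fun n hn => ?_
      have h3 : Real.log n ≠ 0 := (hfacts n hn).1.ne'
      have h4 : Real.log n * (level Q n * Real.exp (l * Real.log n) /
          (1 + level Q n * (Real.exp (l * Real.log n) - 1))) =
          (Real.log n * level Q n) * (Real.exp (l * Real.log n) / (1 + zz n)) := by
        rw [hzz]; ring
      rw [h4, hpe n hn, mul_div_cancel₀ _ h3]
      ring
    rw [h1, abs_mul, abs_of_pos hK]
    have h2 : |∑ n ∈ W, (Real.exp (l * Real.log n) / (1 + zz n) - (1 + r))| ≤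
        ∑ n ∈ W, (η / 4 * |r| + if Real.log n < L - c1 then |r| else 0) := by
      refine (abs_sum_le_sum_abs _ _).trans (sum_le_sum fun n hn => ?_)
      by_cases hn2 : Real.log n < L - c1
      · rw [if_pos hn2]
        have := hP.far (hw n hn).1 (hw n hn).2 (e := Real.exp (l * Real.log n)) rfl (hpe n hn)
          (z := zz n) rfl
        have h3 : 0 ≤ η / 4 * |r| := by positivity
        linarith
      · rw [if_neg hn2, add_zero]
        exact hP.near (hw n hn).1 (hw n hn).2 (e := Real.exp (l * Real.log n)) rfl (hpe n hn)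
          (z := zz n) rfl (not_lt.1 hn2)
    have h3 : ∑ n ∈ W, (η / 4 * |r| + if Real.log n < L - c1 then |r| else 0) =
        η / 4 * |r| * W.card + |r| * Wf.card := by
      rw [sum_add_distrib, sum_const, nsmul_eq_mul, ← sum_filter, sum_const, nsmul_eq_mul, ← hWf]
      ring
    rw [h3] at h2
    have h4 : |r| * (Wf.card : ℝ) ≤ |r| * (ε * η / 32 * W.card) :=
      mul_le_mul_of_nonneg_left hfar (abs_nonneg _)
    have h5 : |r| * (ε * η / 32 * W.card) ≤ η / 4 * |r| * W.card := by
      have : ε * η / 32 ≤ η / 4 := by nlinarith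
      calc |r| * (ε * η / 32 * W.card) = (ε * η / 32) * (|r| * W.card) := by ring
        _ ≤ η / 4 * (|r| * W.card) := mul_le_mul_of_nonneg_right this (by positivity)
        _ = _ := by ring
    calc qq Q * |∑ n ∈ W, (Real.exp (l * Real.log n) / (1 + zz n) - (1 + r))|
        ≤ qq Q * (η / 4 * |r| * W.card + η / 4 * |r| * W.card) :=
          mul_le_mul_of_nonneg_left (by linarith) hK.le
      _ = t := by rw [ht, hM]; ring
  -- (c) the cost
  have hlin := hP.lin hRT
  have hrate : 0 ≤ rate r := by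
    have h1 : 0 ≤ |Real.log (1 + r)| * |r| := by positivity
    have h2 : 0 < 2 / ε := by positivity
    by_contra hcon
    push Not at hcon
    have := mul_neg_of_pos_of_neg h2 hcon
    linarith
  have hsump : ∑ n ∈ W, level Q n ≤ M / L * (1 + η / 4) := by
    have h1 : ∑ n ∈ W, level Q n ≤
        ∑ n ∈ W, (qq Q / L * (1 + η / 8) + if Real.log n < L - c1 then qq Q / (ε * L) else 0) := by
      refine sum_le_sum fun n hn => ?_
      by_cases hn2 : Real.log n < L - c1
      · rw [if_pos hn2]
        have h2 := (hfacts n hn).2.2.2.2.2.1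
        have h3 : 0 ≤ qq Q / L * (1 + η / 8) := by positivity
        linarith
      · rw [if_neg hn2, add_zero, hpe n hn]
        rw [div_mul_eq_mul_div, div_le_div_iff₀ (hfacts n hn).1 hLp]
        have h4 : L ≤ (1 + η / 8) * Real.log n :=
          b6.trans (mul_le_mul_of_nonneg_left (not_lt.1 hn2) (by positivity))
        nlinarith
    rw [sum_add_distrib, sum_const, nsmul_eq_mul, ← sum_filter, sum_const, nsmul_eq_mul, ← hWf] at h1
    refine h1.trans ?_
    have h2 : (Wf.card : ℝ) * (qq Q / (ε * L)) ≤ (ε * η / 32 * W.card) * (qq Q / (ε * L)) :=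
      mul_le_mul_of_nonneg_right hfar (by positivity)
    have h3 : (ε * η / 32 * W.card) * (qq Q / (ε * L)) = η / 32 * (M / L) := by
      rw [hM]
      field_simp
    have h4 : (W.card : ℝ) * (qq Q / L * (1 + η / 8)) = M / L * (1 + η / 8) := by
      rw [hM]; ring
    rw [h4]
    have h5 : 0 ≤ M / L := by positivity
    nlinarith
  have hcost : l * M' - ∑ n ∈ W, Real.log (1 + zz n) ≤ (1 + η / 4) * (rate r * (M / L * (1 + η / 4))) := by
    have h1 : l * M' - ∑ n ∈ W, Real.log (1 + zz n) = ∑ n ∈ W,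
        (l * (Real.log n * (level Q n * Real.exp (l * Real.log n) / (1 + zz n))) -
          Real.log (1 + zz n)) := by
      rw [sum_sub_distrib, ← mul_sum]
    rw [h1]
    have h2 : ∑ n ∈ W, (l * (Real.log n * (level Q n * Real.exp (l * Real.log n) / (1 + zz n))) -
          Real.log (1 + zz n)) ≤ ∑ n ∈ W, (1 + η / 4) * (level Q n * rate r) :=
      sum_le_sum fun n hn => hP.cost hRT (hw n hn).1 (hw n hn).2 rfl (hpe n hn) rfl
    refine h2.trans ?_
    rw [← mul_sum, ← sum_mul, mul_comm (∑ n ∈ W, level Q n)]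
    exact mul_le_mul_of_nonneg_left (mul_le_mul_of_nonneg_left hsump hrate) (by positivity)
  have hlt : |l| * t ≤ η / ε * (M / L * rate r) := by
    have h1 : |l| * t = (M / L) * (η / 2) * (|Real.log (1 + r)| * |r|) := by
      rw [hl, ht, abs_div, abs_of_pos hLp]
      ring
    rw [h1]
    calc (M / L) * (η / 2) * (|Real.log (1 + r)| * |r|) ≤ (M / L) * (η / 2) * (2 / ε * rate r) :=
          mul_le_mul_of_nonneg_left hlin (by positivity)
      _ = _ := by ring
  have hTI' := hTI Ω μ (fun n => level Q n) A hA W (fun n => Real.log n) l M' t hz1 rfl htp hvar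
  have hsub : {ω | |sm (A ω) (fun n => Real.log n) W - M'| ≤ t} ⊆
      {ω | |sm (A ω) (fun n => Real.log n) W - (1 + r) * M| ≤ η * |r| * M} := by
    intro ω hω
    have hω' : |sm (A ω) (fun n => Real.log n) W - M'| ≤ t := hω
    change |sm (A ω) (fun n => Real.log n) W - (1 + r) * M| ≤ η * |r| * M
    have h1 : sm (A ω) (fun n => Real.log n) W - (1 + r) * M =
        (sm (A ω) (fun n => Real.log n) W - M') + (M' - (1 + r) * M) := by ring
    rw [h1]
    refine (abs_add_le _ _).trans ?_
    have h2 : t + t = η * |r| * M := by rw [ht]; ring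
    linarith
  refine le_trans ?_ (hTI'.trans (measureReal_mono hsub))
  have hprod : ∏ n ∈ W, (1 + level Q n * (Real.exp (l * Real.log n) - 1)) =
      Real.exp (∑ n ∈ W, Real.log (1 + zz n)) := by
    rw [Real.exp_sum]
    exact prod_congr rfl fun n hn => (Real.exp_log (hz1 n hn)).symm
  rw [hprod, div_mul_eq_mul_div, ← Real.exp_add]
  refine div_le_div_of_nonneg_right (Real.exp_le_exp.2 ?_) (by norm_num)
  have h1 : 0 ≤ M / L * rate r := by positivity
  have h2 : (1 + η / 4) * (rate r * (M / L * (1 + η / 4))) + η / ε * (M / L * rate r) ≤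
      (1 + 3 * η / ε) * (M / L * rate r) := by
    have h3 : (1 + η / 4) * (1 + η / 4) + η / ε ≤ 1 + 3 * η / ε := by
      have h4 : η ≤ η / ε := by
        rw [le_div_iff₀ hε]
        nlinarith
      have h5 : 3 * η / ε = 3 * (η / ε) := by ring
      rw [h5]
      nlinarith
    calc _ = ((1 + η / 4) * (1 + η / 4) + η / ε) * (M / L * rate r) := by ring
      _ ≤ _ := mul_le_mul_of_nonneg_right h3 h1
  have h3 : (1 + 3 * η / ε) * (M / L) * rate r = (1 + 3 * η / ε) * (M / L * rate r) := by ring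
  rw [h3]
  linarith

end Pool.Agent.Q98.ML
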