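import Pool.Agent.Q112.ML.Stm

/-!
Project ML (helper112): estimates for one element in the lower bound for the tails.
-/

set_option autoImplicit false

namespace Pool.Agent.Q98.ML

open Finset Filter Pool.Agent.Q112.ML
open scoped Topology

theorem e_pos {r L w : ℝ} (hr : 0 < r) (hL : 0 < L) (hw : 0 ≤ w) (hwL : w ≤ L) :
    1 ≤ Real.exp (Real.log (1 + r) / L * w) ∧ Real.exp (Real.log (1 + r) / L * w) ≤ 1 + r := by
  have h1 : 0 < Real.log (1 + r) := Real.log_pos (by linarith)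
  have h2 : 0 ≤ Real.log (1 + r) / L * w := by positivity
  have h3 : Real.log (1 + r) / L * w ≤ Real.log (1 + r) := by
    rw [div_mul_eq_mul_div, div_le_iff₀ hL]
    exact mul_le_mul_of_nonneg_left hwL h1.le
  refine ⟨Real.one_le_exp h2, ?_⟩
  calc _ ≤ Real.exp (Real.log (1 + r)) := Real.exp_le_exp.2 h3
    _ = 1 + r := Real.exp_log (by linarith)

theorem e_neg {r L w : ℝ} (hr : r < 0) (hr1 : -1 < r) (hL : 0 < L) (hw : 0 ≤ w) (hwL : w ≤ L) :
    1 + r ≤ Real.exp (Real.log (1 + r) / L * w) ∧ Real.exp (Real.log (1 + r) / L * w) ≤ 1 := by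
  have h1 : Real.log (1 + r) < 0 := Real.log_neg (by linarith) (by linarith)
  have h2 : Real.log (1 + r) / L * w ≤ 0 :=
    mul_nonpos_of_nonpos_of_nonneg (div_nonpos_of_nonpos_of_nonneg h1.le hL.le) hw
  have h3 : Real.log (1 + r) ≤ Real.log (1 + r) / L * w := by
    rw [div_mul_eq_mul_div, le_div_iff₀ hL]
    nlinarith
  refine ⟨?_, Real.exp_le_one_iff.2 h2⟩
  calc 1 + r = Real.exp (Real.log (1 + r)) := (Real.exp_log (by linarith)).symm
    _ ≤ _ := Real.exp_le_exp.2 h3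

/-- the parameters -/
structure Prm (K ε η c1 L r : ℝ) : Prop where
  K0 : 0 < K
  ε0 : 0 < ε
  ε1 : ε ≤ 1 / 2
  η0 : 0 < η
  η1 : η ≤ 1
  c0 : 0 < c1
  L1 : 1 ≤ L
  KL : K ≤ ε * L
  hz : K / (ε * L) * L ^ (1 - ε) ≤ η / 32
  hm : 2 * c1 * (1 + Real.log (1 + L)) ≤ η / 8 * L
  hc : c1 ≤ ε * L
  hd : L ≤ (1 + η / 8) * (L - c1)
  r1 : -1 + ε ≤ r
  r2 : r ≤ L ^ (1 - ε)
  r0 : r ≠ 0

section
variable {K ε η c1 L r : ℝ}

theorem Prm.Lpos (h : Prm K ε η c1 L r) : 0 < L := by linarith [h.L1]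

theorem Prm.pw (h : Prm K ε η c1 L r) : 1 ≤ L ^ (1 - ε) :=
  Real.one_le_rpow h.L1 (by linarith [h.ε1])

theorem Prm.rabs (h : Prm K ε η c1 L r) : |r| ≤ L ^ (1 - ε) := by
  rw [abs_le]
  have := h.pw
  exact ⟨by linarith [h.r1, h.ε0], h.r2⟩

theorem Prm.E (h : Prm K ε η c1 L r) : max 1 (1 + r) ≤ 2 * L ^ (1 - ε) := by
  have := h.pw
  exact max_le (by linarith) (by linarith [h.r2])

theorem Prm.hr (h : Prm K ε η c1 L r) : 0 < 1 + r := by linarith [h.r1, h.ε0]

/-- facts for one element -/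
theorem Prm.facts (h : Prm K ε η c1 L r) {w e p z : ℝ} (hw : ε * L ≤ w) (hwL : w ≤ L)
    (he : e = Real.exp (Real.log (1 + r) / L * w)) (hp : p = K / w) (hz : z = p * (e - 1)) :
    0 < w ∧ 0 < e ∧ e ≤ max 1 (1 + r) ∧ |e - 1| ≤ |r| ∧ 0 < p ∧ p ≤ K / (ε * L) ∧ p ≤ 1 ∧
      p * max 1 (1 + r) ≤ η / 16 ∧ p * |r| ≤ η / 32 ∧ |z| ≤ η / 32 ∧ 1 / 2 ≤ 1 + z := by
  have hL := h.Lpos
  have hεL : 0 < ε * L := mul_pos h.ε0 hL
  have hw0 : 0 < w := lt_of_lt_of_le hεL hw
  have he0 : 0 < e := by rw [he]; exact Real.exp_pos _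
  have heE : e ≤ max 1 (1 + r) ∧ |e - 1| ≤ |r| := by
    rcases lt_or_gt_of_ne h.r0 with hr | hr
    · obtain ⟨a, b⟩ := e_neg hr (by linarith [h.r1, h.ε0]) hL hw0.le hwL
      rw [← he] at a b
      refine ⟨b.trans (le_max_left _ _), ?_⟩
      rw [abs_of_nonpos (by linarith), abs_of_neg hr]
      linarith
    · obtain ⟨a, b⟩ := e_pos hr hL hw0.le hwL
      rw [← he] at a b
      refine ⟨b.trans (le_max_right _ _), ?_⟩
      rw [abs_of_nonneg (by linarith), abs_of_pos hr]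
      linarith
  have hp0 : 0 < p := by rw [hp]; exact div_pos h.K0 hw0
  have hp1 : p ≤ K / (ε * L) := by
    rw [hp]
    exact div_le_div_of_nonneg_left h.K0.le hεL hw
  have hp2 : p ≤ 1 := hp1.trans ((div_le_one hεL).2 h.KL)
  have hpE : p * max 1 (1 + r) ≤ η / 16 := by
    calc p * max 1 (1 + r) ≤ K / (ε * L) * (2 * L ^ (1 - ε)) :=
          mul_le_mul hp1 h.E (by positivity) (div_pos h.K0 hεL).le
      _ = 2 * (K / (ε * L) * L ^ (1 - ε)) := by ring
      _ ≤ 2 * (η / 32) := by linarith [h.hz]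
      _ = η / 16 := by ring
  have hpr : p * |r| ≤ η / 32 := by
    exact (mul_le_mul hp1 h.rabs (abs_nonneg _) (div_pos h.K0 hεL).le).trans h.hz
  have hz1 : |z| ≤ η / 32 := by
    rw [hz, abs_mul, abs_of_pos hp0]
    exact (mul_le_mul_of_nonneg_left heE.2 hp0.le).trans hpr
  refine ⟨hw0, he0, heE.1, heE.2, hp0, hp1, hp2, hpE, hpr, hz1, ?_⟩
  have := (abs_le.1 hz1).1
  linarith [h.η1]

/-- (B) -/
theorem Prm.far (h : Prm K ε η c1 L r) {w e p z : ℝ} (hw : ε * L ≤ w) (hwL : w ≤ L)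
    (he : e = Real.exp (Real.log (1 + r) / L * w)) (hp : p = K / w) (hz : z = p * (e - 1)) :
    |e / (1 + z) - (1 + r)| ≤ |r| := by
  obtain ⟨hw0, he0, _, _, hp0, _, hp1, _, _, _, hz2⟩ := h.facts hw hwL he hp hz
  have hL := h.Lpos
  have h1z : 0 < 1 + z := by linarith
  rcases lt_or_gt_of_ne h.r0 with hr | hr
  · obtain ⟨a, b⟩ := e_neg hr (by linarith [h.r1, h.ε0]) hL hw0.le hwL
    rw [← he] at a b
    have k1 : e ≤ 1 + z := by rw [hz]; nlinarith
    have k2 : 1 + z ≤ 1 := by rw [hz]; nlinarith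
    have k3 : e / (1 + z) ≤ 1 := (div_le_one h1z).2 k1
    have k4 : e ≤ e / (1 + z) := by
      rw [le_div_iff₀ h1z]
      nlinarith
    rw [abs_of_neg hr, abs_le]
    constructor <;> linarith
  · obtain ⟨a, b⟩ := e_pos hr hL hw0.le hwL
    rw [← he] at a b
    have k1 : 1 + z ≤ e := by rw [hz]; nlinarith
    have k2 : 1 ≤ 1 + z := by rw [hz]; nlinarith
    have k3 : 1 ≤ e / (1 + z) := (one_le_div h1z).2 k1
    have k4 : e / (1 + z) ≤ e := by
      rw [div_le_iff₀ h1z]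
      nlinarith
    rw [abs_of_pos hr, abs_le]
    constructor <;> linarith

theorem log_neg_le {v : ℝ} (hv : 0 < 1 - v) : -Real.log (1 - v) ≤ v / (1 - v) := by
  have h1 := Real.log_le_sub_one_of_pos (x := (1 - v)⁻¹) (by positivity)
  rw [Real.log_inv] at h1
  have h2 : (1 - v)⁻¹ - 1 = v / (1 - v) := by
    field_simp
    ring
  linarith

/-- (G) -/
theorem Prm.logr (h : Prm K ε η c1 L r) :
    (1 + r) * |Real.log (1 + r)| ≤ |r| * (1 + Real.log (1 + L)) ∧ c1 * |Real.log (1 + r)| ≤ L := by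
  have hL := h.Lpos
  have hlL : 0 ≤ Real.log (1 + L) := Real.log_nonneg (by linarith)
  have hη := h.η1
  have hc := h.c0
  rcases lt_or_gt_of_ne h.r0 with hr | hr
  · have h1 : Real.log (1 + r) < 0 := Real.log_neg h.hr (by linarith)
    rw [abs_of_neg h1, abs_of_neg hr]
    have h2 := log_neg_le (v := -r) (by have := h.hr; linarith)
    rw [sub_neg_eq_add] at h2
    have h3 := h.hr
    rw [le_div_iff₀ h3] at h2
    constructor
    · nlinarith
    · have h4 : ε * (-Real.log (1 + r)) ≤ 1 := by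
        have : ε * (-Real.log (1 + r)) ≤ -Real.log (1 + r) * (1 + r) := by
          have := h.r1
          nlinarith
        have := h.hr
        linarith
      have h5 := mul_le_mul_of_nonneg_right h.hc (by linarith : 0 ≤ -Real.log (1 + r))
      nlinarith
  · have h1 : 0 < Real.log (1 + r) := Real.log_pos (by linarith)
    rw [abs_of_pos h1, abs_of_pos hr]
    have h2 : Real.log (1 + r) ≤ Real.log (1 + L) := by
      refine Real.log_le_log h.hr ?_
      have : L ^ (1 - ε) ≤ L ^ (1 : ℝ) :=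
        Real.rpow_le_rpow_of_exponent_le h.L1 (by linarith [h.ε0])
      rw [Real.rpow_one] at this
      linarith [h.r2]
    constructor
    · have h3 := Real.log_le_sub_one_of_pos h.hr
      nlinarith
    · have h3 := h.hm
      nlinarith

/-- (A) -/
theorem Prm.near (h : Prm K ε η c1 L r) {w e p z : ℝ} (hw : ε * L ≤ w) (hwL : w ≤ L)
    (he : e = Real.exp (Real.log (1 + r) / L * w)) (hp : p = K / w) (hz : z = p * (e - 1))
    (hn : L - c1 ≤ w) : |e / (1 + z) - (1 + r)| ≤ η / 4 * |r| := by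
  obtain ⟨hw0, he0, heE, he1, hp0, _, hp1, hpE, _, _, hz2⟩ := h.facts hw hwL he hp hz
  have hL := h.Lpos
  have h1z : 0 < 1 + z := by linarith
  have a1 : |e / (1 + z) - e| ≤ η / 8 * |r| := by
    have k1 : e / (1 + z) - e = -(e * z) / (1 + z) := by
      field_simp
      ring
    rw [k1, abs_div, abs_neg, abs_mul, abs_of_pos he0, abs_of_pos h1z, div_le_iff₀ h1z, hz, abs_mul,
      abs_of_pos hp0, ← hz]
    have k2 : e * (p * |e - 1|) ≤ max 1 (1 + r) * (p * |r|) :=
      mul_le_mul heE (mul_le_mul_of_nonneg_left he1 hp0.le) (by positivity) (by positivity)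
    have k3 : max 1 (1 + r) * (p * |r|) ≤ η / 16 * |r| := by
      calc max 1 (1 + r) * (p * |r|) = (p * max 1 (1 + r)) * |r| := by ring
        _ ≤ η / 16 * |r| := mul_le_mul_of_nonneg_right hpE (abs_nonneg _)
    have k4 : 0 ≤ η * |r| := mul_nonneg h.η0.le (abs_nonneg _)
    nlinarith
  have a2 : |e - (1 + r)| ≤ η / 8 * |r| := by
    obtain ⟨g1, g2⟩ := h.logr
    have k1 : e = (1 + r) * Real.exp (-(Real.log (1 + r) / L * (L - w))) := by
      rw [he]
      nth_rewrite 2 [← Real.exp_log h.hr]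
      rw [← Real.exp_add]
      congr 1
      field_simp
      ring
    have k2 : |-(Real.log (1 + r) / L * (L - w))| ≤ |Real.log (1 + r)| / L * c1 := by
      rw [abs_neg, abs_mul, abs_div, abs_of_pos hL, abs_of_nonneg (by linarith : 0 ≤ L - w)]
      exact mul_le_mul_of_nonneg_left (by linarith) (by positivity)
    have k3 : |Real.log (1 + r)| / L * c1 ≤ 1 := by
      rw [div_mul_eq_mul_div, div_le_one hL, mul_comm]
      exact g2
    have k4 := Real.abs_exp_sub_one_le (k2.trans k3)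
    have k5 : e - (1 + r) = (1 + r) * (Real.exp (-(Real.log (1 + r) / L * (L - w))) - 1) := by
      rw [k1]; ring
    rw [k5, abs_mul, abs_of_pos h.hr]
    have k6 : (1 + r) * |Real.exp (-(Real.log (1 + r) / L * (L - w))) - 1| ≤
        (1 + r) * (2 * (|Real.log (1 + r)| / L * c1)) :=
      mul_le_mul_of_nonneg_left (k4.trans (by linarith)) h.hr.le
    refine k6.trans ?_
    have k7 : (1 + r) * (2 * (|Real.log (1 + r)| / L * c1)) =
        2 * c1 * ((1 + r) * |Real.log (1 + r)|) / L := by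
      field_simp
    rw [k7, div_le_iff₀ hL]
    have k8 := mul_le_mul_of_nonneg_left g1 (by have := h.c0; positivity : 0 ≤ 2 * c1)
    have k9 := mul_le_mul_of_nonneg_right h.hm (abs_nonneg r)
    nlinarith
  calc |e / (1 + z) - (1 + r)| = |(e / (1 + z) - e) + (e - (1 + r))| := by ring_nf
    _ ≤ |e / (1 + z) - e| + |e - (1 + r)| := abs_add_le _ _
    _ ≤ η / 4 * |r| := by linarith

/-- the rate is monotone -/
theorem rate_le (hRT : S_RT) {r s : ℝ} (h : (0 ≤ s ∧ s ≤ r) ∨ (r ≤ s ∧ s ≤ 0 ∧ -1 ≤ r)) :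
    rate s ≤ rate r := by
  rcases h with ⟨h1, h2⟩ | ⟨h1, h2, h3⟩
  · rcases eq_or_lt_of_le h2 with h | h
    · rw [h]
    · exact (hRT.2.1 s r h1 h).le
  · rcases eq_or_lt_of_le h1 with h | h
    · rw [h]
    · have := hRT.2.2.1 (-s) (-r) (by linarith) (by linarith) (by linarith)
      rw [neg_neg, neg_neg] at this
      exact this.le

/-- (C) -/
theorem Prm.cost (h : Prm K ε η c1 L r) (hRT : S_RT) {w e p z : ℝ} (hw : ε * L ≤ w) (hwL : w ≤ L)
    (he : e = Real.exp (Real.log (1 + r) / L * w)) (hp : p = K / w) (hz : z = p * (e - 1)) :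
    Real.log (1 + r) / L * (w * (p * e / (1 + z))) - Real.log (1 + z) ≤
      (1 + η / 4) * (p * rate r) := by
  obtain ⟨hw0, he0, heE, he1, hp0, _, hp1, hpE, _, _, hz2⟩ := h.facts hw hwL he hp hz
  have hL := h.Lpos
  have h1z : 0 < 1 + z := by linarith
  set y : ℝ := Real.log (1 + r) / L * w with hy
  obtain ⟨q1, q2⟩ := hRT.2.2.2.2.2.2.2.2.2.2 y
  rw [← he] at q1 q2
  set g : ℝ := y * e - e + 1 with hg
  -- sign
  have s1 : 0 ≤ y * (e - 1) := by
    rcases le_total 0 y with h' | h'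
    · have : 1 ≤ e := by rw [he]; exact Real.one_le_exp h'
      exact mul_nonneg h' (by linarith)
    · have : e ≤ 1 := by rw [he]; exact Real.exp_le_one_iff.2 h'
      exact mul_nonneg_of_nonpos_of_nonpos h' (by linarith)
  have t1 : Real.log (1 + r) / L * (w * (p * e / (1 + z))) ≤ p * (y * e) := by
    have k1 : Real.log (1 + r) / L * (w * (p * e / (1 + z))) = p * (y * e) / (1 + z) := by
      rw [hy]; ring
    rw [k1, div_le_iff₀ h1z, hz]
    have k2 : 0 ≤ p * p * e * (y * (e - 1)) := by positivity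
    nlinarith
  have t2 : -Real.log (1 + z) ≤ -z + 2 * z ^ 2 := by
    have k1 := Real.log_le_sub_one_of_pos (x := (1 + z)⁻¹) (by positivity)
    rw [Real.log_inv] at k1
    have k2 : (1 + z)⁻¹ - 1 = -z + z ^ 2 / (1 + z) := by
      field_simp
      ring
    have k3 : z ^ 2 / (1 + z) ≤ 2 * z ^ 2 := by
      rw [div_le_iff₀ h1z]
      nlinarith [sq_nonneg z]
    linarith
  have hmax : max 1 e ≤ max 1 (1 + r) := max_le (le_max_left _ _) heE
  have hg0 : 0 ≤ g := by
    have k1 : 0 < 2 * max 1 e := by positivity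
    by_contra hcon
    push Not at hcon
    have := mul_neg_of_pos_of_neg k1 hcon
    linarith [sq_nonneg (e - 1)]
  have t3 : 2 * z ^ 2 ≤ η / 4 * (p * g) := by
    have k1 : z ^ 2 = p ^ 2 * (e - 1) ^ 2 := by rw [hz]; ring
    have k2 : p ^ 2 * (e - 1) ^ 2 ≤ p ^ 2 * (2 * max 1 (1 + r) * g) := by
      refine mul_le_mul_of_nonneg_left (q2.trans ?_) (sq_nonneg p)
      exact mul_le_mul_of_nonneg_right (by linarith) hg0
    have k3 : p ^ 2 * (2 * max 1 (1 + r) * g) = 2 * (p * max 1 (1 + r)) * (p * g) := by ring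
    have k4 : 2 * (p * max 1 (1 + r)) * (p * g) ≤ 2 * (η / 16) * (p * g) :=
      mul_le_mul_of_nonneg_right (by linarith) (mul_nonneg hp0.le hg0)
    rw [k1]
    linarith
  have t4 : g ≤ rate r := by
    rw [← q1]
    refine rate_le hRT ?_
    rcases lt_or_gt_of_ne h.r0 with hr | hr
    · obtain ⟨a, b⟩ := e_neg hr (by linarith [h.r1, h.ε0]) hL hw0.le hwL
      rw [← hy, ← he] at a b
      exact Or.inr ⟨by linarith, by linarith, by linarith [h.r1, h.ε0]⟩
    · obtain ⟨a, b⟩ := e_pos hr hL hw0.le hwL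
      rw [← hy, ← he] at a b
      exact Or.inl ⟨by linarith, by linarith⟩
  have t5 : p * (y * e) - z = p * g := by rw [hz, hg]; ring
  have t6 : p * g ≤ p * rate r := mul_le_mul_of_nonneg_left t4 hp0.le
  have t7 : 0 ≤ η := h.η0.le
  nlinarith

/-- (D) -/
theorem Prm.var (h : Prm K ε η c1 L r) {w e p z : ℝ} (hw : ε * L ≤ w) (hwL : w ≤ L)
    (he : e = Real.exp (Real.log (1 + r) / L * w)) (hp : p = K / w) (hz : z = p * (e - 1)) :
    w ^ 2 * (p * e / (1 + z)) ≤ 2 * K * L * max 1 (1 + r) := by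
  obtain ⟨hw0, he0, heE, he1, hp0, _, hp1, hpE, _, _, hz2⟩ := h.facts hw hwL he hp hz
  have hL := h.Lpos
  have h1z : 0 < 1 + z := by linarith
  have hK := h.K0
  have k1 : w ^ 2 * (p * e / (1 + z)) = K * w * (e / (1 + z)) := by
    rw [hp]
    field_simp
  rw [k1]
  have k2 : e / (1 + z) ≤ 2 * max 1 (1 + r) := by
    rw [div_le_iff₀ h1z]
    nlinarith
  calc K * w * (e / (1 + z)) ≤ K * L * (2 * max 1 (1 + r)) := by gcongr
    _ = _ := by ring

/-- (E) the linear term -/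
theorem Prm.lin (h : Prm K ε η c1 L r) (hRT : S_RT) :
    |Real.log (1 + r)| * |r| ≤ 2 / ε * rate r := by
  have hε := h.ε0
  rcases lt_or_gt_of_ne h.r0 with hr | hr
  · have h1 : Real.log (1 + r) < 0 := Real.log_neg h.hr (by linarith)
    rw [abs_of_neg h1, abs_of_neg hr]
    have h2 := log_neg_le (v := -r) (by have := h.hr; linarith)
    rw [sub_neg_eq_add] at h2
    have h3 := h.hr
    rw [le_div_iff₀ h3] at h2
    have h4 := (hRT.2.2.2.2.1 (-r) (by linarith) (by linarith [h.r1, h.ε0])).1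
    rw [neg_neg] at h4
    rw [div_mul_eq_mul_div, le_div_iff₀ hε]
    have h5 : -Real.log (1 + r) * ε ≤ -r := by
      have := h.r1
      nlinarith
    nlinarith
  · have h1 : 0 < Real.log (1 + r) := Real.log_pos (by linarith)
    rw [abs_of_pos h1, abs_of_pos hr]
    have h2 := hRT.2.2.2.2.2.2.2.2.2.1 r hr.le
    have h3 : 0 ≤ rate r := by nlinarith
    rw [div_mul_eq_mul_div, le_div_iff₀ hε]
    have := h.ε1
    nlinarith [mul_nonneg hr.le h1.le]

end

end Pool.Agent.Q98.ML
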